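import Pool.Agent.J4H20.TP.Stm

/-!
# Project TP of helper20: (R3P), no real points (helper21)
-/

set_option autoImplicit false

namespace Pool.Agent.J4H21.TP

open Polynomial Filter Topology
open Pool.Agent.J4H20.TP

/-- coefficientwise convergence -/
def CT (Q : ℕ → ℝ[X]) (P : ℝ[X]) : Prop :=
  ∀ j, Tendsto (fun m => (Q m).coeff j) atTop (𝓝 (P.coeff j))

lemma CT.const (P : ℝ[X]) : CT (fun _ => P) P := fun _ => tendsto_const_nhds

lemma CT.add {Q Q' : ℕ → ℝ[X]} {P P' : ℝ[X]} (h : CT Q P) (h' : CT Q' P') :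
    CT (fun m => Q m + Q' m) (P + P') := by
  intro j
  simp only [coeff_add]
  exact (h j).add (h' j)

lemma CT.sub {Q Q' : ℕ → ℝ[X]} {P P' : ℝ[X]} (h : CT Q P) (h' : CT Q' P') :
    CT (fun m => Q m - Q' m) (P - P') := by
  intro j
  simp only [coeff_sub]
  exact (h j).sub (h' j)

lemma CT.mul {Q Q' : ℕ → ℝ[X]} {P P' : ℝ[X]} (h : CT Q P) (h' : CT Q' P') :
    CT (fun m => Q m * Q' m) (P * P') := by
  intro j
  simp only [coeff_mul]
  exact tendsto_finset_sum _ fun x _ => (h x.1).mul (h' x.2)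

lemma CT.pow {Q : ℕ → ℝ[X]} {P : ℝ[X]} (h : CT Q P) (n : ℕ) :
    CT (fun m => Q m ^ n) (P ^ n) := by
  induction n with
  | zero => simp only [pow_zero]; exact CT.const 1
  | succ n ih => simp only [pow_succ]; exact ih.mul h

lemma CT.cc {u : ℕ → ℝ} {v : ℝ} (h : Tendsto u atTop (𝓝 v)) : CT (fun m => C (u m)) (C v) := by
  intro j
  simp only [coeff_C]
  split_ifs
  · exact h
  · exact tendsto_const_nhds

lemma CT.sum {ι : Type} (s : Finset ι) {Q : ι → ℕ → ℝ[X]} {P : ι → ℝ[X]}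
    (h : ∀ i ∈ s, CT (Q i) (P i)) : CT (fun m => ∑ i ∈ s, Q i m) (∑ i ∈ s, P i) := by
  intro j
  simp only [finsetSum_coeff]
  exact tendsto_finset_sum _ fun i hi => h i hi j

lemma mon_aux (p e : ℕ) (hp : 1 ≤ p) (G H R : ℝ[X]) (hG : G.Monic) (hGn : G.natDegree = e)
    (hH : H.Monic) (hHn : H.natDegree = e) (c : ℝ) (hR : R.degree < ((p - 1) * e : ℕ)) :
    (C (1 / (p : ℝ)) * (∑ j ∈ Finset.range p, H ^ j * G ^ (p - 1 - j)) - C c * R).Monic ∧
    (C (1 / (p : ℝ)) * (∑ j ∈ Finset.range p, H ^ j * G ^ (p - 1 - j)) - C c * R).natDegree =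
      (p - 1) * e := by
  have hp0 : (p : ℝ) ≠ 0 := by
    have : 0 < p := hp
    exact_mod_cast this.ne'
  set N := (p - 1) * e with hN
  have hT : ∀ j ∈ Finset.range p, (H ^ j * G ^ (p - 1 - j)).Monic ∧
      (H ^ j * G ^ (p - 1 - j)).natDegree = N := by
    intro j hj
    rw [Finset.mem_range] at hj
    refine ⟨(hH.pow j).mul (hG.pow _), ?_⟩
    rw [(hH.pow j).natDegree_mul (hG.pow _), hH.natDegree_pow, hG.natDegree_pow, hHn, hGn,
      ← add_mul, hN]
    congr 1
    omega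
  have hSc : (∑ j ∈ Finset.range p, H ^ j * G ^ (p - 1 - j)).coeff N = p := by
    rw [finsetSum_coeff, Finset.sum_congr rfl (g := fun _ => (1 : ℝ))]
    · simp
    · intro j hj
      obtain ⟨h1, h2⟩ := hT j hj
      rw [← h2]
      exact h1.coeff_natDegree
  have hSn : (∑ j ∈ Finset.range p, H ^ j * G ^ (p - 1 - j)).natDegree ≤ N :=
    natDegree_sum_le_of_forall_le _ _ fun j hj => (hT j hj).2.le
  have hRc : R.coeff N = 0 := coeff_eq_zero_of_degree_lt hR
  have hRn : R.natDegree ≤ N := natDegree_le_of_degree_le hR.le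
  have hQn : (C (1 / (p : ℝ)) * (∑ j ∈ Finset.range p, H ^ j * G ^ (p - 1 - j)) -
      C c * R).natDegree ≤ N := by
    refine (natDegree_sub_le _ _).trans (max_le ?_ ?_)
    · exact (natDegree_C_mul_le _ _).trans hSn
    · exact (natDegree_C_mul_le _ _).trans hRn
  have hQc : (C (1 / (p : ℝ)) * (∑ j ∈ Finset.range p, H ^ j * G ^ (p - 1 - j)) -
      C c * R).coeff N = 1 := by
    rw [coeff_sub, coeff_C_mul, coeff_C_mul, hSc, hRc]
    field_simp
    ring
  refine ⟨monic_of_natDegree_le_of_coeff_eq_one N hQn hQc, le_antisymm hQn ?_⟩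
  exact le_natDegree_of_ne_zero (by rw [hQc]; exact one_ne_zero)

/-- the small parameter -/
noncomputable def em (p m : ℕ) : ℚ := 1 / ((m : ℚ) + p + 1)

lemma em_tendsto (p : ℕ) : Tendsto (fun m : ℕ => ((em p m : ℚ) : ℝ)) atTop (𝓝 0) := by
  have h1 : Tendsto (fun m : ℕ => ((m : ℝ) + (p + 1))) atTop atTop :=
    tendsto_atTop_add_const_right _ _ tendsto_natCast_atTop_atTop
  refine h1.inv_tendsto_atTop.congr fun m => ?_
  simp only [em]
  push_cast
  simp [add_assoc]

lemma pol_tendsto (p : ℕ) (f : ℚ[X]) :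
    Tendsto (fun m : ℕ => ((f.eval (em p m) : ℚ) : ℝ)) atTop (𝓝 ((f.eval 0 : ℚ) : ℝ)) := by
  have hc : Continuous fun x : ℝ => (f.map (algebraMap ℚ ℝ)).eval x := Polynomial.continuous _
  have h1 := (hc.tendsto 0).comp (em_tendsto p)
  have h2 : (f.map (algebraMap ℚ ℝ)).eval 0 = ((f.eval 0 : ℚ) : ℝ) := by
    rw [eval_map, eval₂_at_zero, ← coeff_zero_eq_eval_zero]
    rfl
  rw [h2] at h1
  refine h1.congr fun m => ?_
  simp only [Function.comp_apply]
  rw [eval_map]
  have h3 := Polynomial.hom_eval₂ f (RingHom.id ℚ) (algebraMap ℚ ℝ) (em p m)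
  rw [RingHom.comp_id] at h3
  exact h3.symm

theorem t_R3P : S_R1P → Pool.Agent.J4H20.TR.S_R2 → S_R3P := by
  intro hR1 hR2 p e hp hp2 he
  classical
  have hp0 : (p : ℝ) ≠ 0 := by exact_mod_cast hp.ne_zero
  have hp1 : 1 ≤ p := hp.one_le
  have hodd : Odd p := hp.odd_of_ne_two (by omega)
  set a : Fin e → ℤ := fun i => ((i : ℕ) : ℤ) with ha
  set A : ℝ[X] := ∏ i, (X - C (a i : ℝ)) with hA
  have hAm : A.Monic := monic_prod_of_monic _ _ fun i _ => monic_X_sub_C _
  have hAn : A.natDegree = e := by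
    rw [hA, natDegree_prod_of_monic _ _ fun i _ => monic_X_sub_C _]
    simp only [natDegree_X_sub_C]
    simp
  have hcadd : ∀ (B : ℝ[X]) (c : ℝ), B.Monic → B.natDegree = e →
      (B + C c).Monic ∧ (B + C c).natDegree = e := by
    intro B c hB hBn
    have hd : (C c : ℝ[X]).degree < B.degree := by
      rw [degree_eq_natDegree hB.ne_zero, hBn]
      exact lt_of_le_of_lt degree_C_le (by exact_mod_cast he)
    exact ⟨hB.add_of_left hd, by rw [natDegree_add_eq_left_of_degree_lt hd, hBn]⟩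
  obtain ⟨hA1m, hA1n⟩ := hcadd A 1 hAm hAn
  have hN : (0 : ℝ[X]).degree < ((p - 1) * e : ℕ) := by
    rw [degree_zero]
    exact WithBot.bot_lt_coe _
  obtain ⟨hPm, hPn⟩ := mon_aux p e hp1 A (A + C 1) 0 hAm hAn hA1m hA1n (1 / (p : ℝ)) hN
  set P : ℝ[X] := C (1 / (p : ℝ)) * (∑ j ∈ Finset.range p, (A + C 1) ^ j * A ^ (p - 1 - j)) -
    C (1 / (p : ℝ)) * 0 with hP
  have hPpos : ∀ x : ℝ, P.eval x ≠ 0 := by
    intro x h
    rw [hP, eval_sub, eval_mul, eval_C, eval_finset_sum] at h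
    simp only [eval_mul, eval_pow, eval_add, eval_C, mul_zero, eval_zero, sub_zero] at h
    have h1 := geom_sum₂_mul (A.eval x + 1) (A.eval x) p
    have h2 : A.eval x ^ p < (A.eval x + 1) ^ p := hodd.strictMono_pow (by linarith)
    rcases mul_eq_zero.mp h with h3 | h3
    · exact absurd h3 (by positivity)
    · rw [h3, zero_mul] at h1
      linarith
  obtain ⟨δ, hδ, hQ⟩ := hR2 P hPm (fun x hx => absurd hx (hPpos x))
  have hPr : {x : ℝ | P.eval x = 0}.ncard = 0 := by
    have : {x : ℝ | P.eval x = 0} = ∅ := by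
      ext x
      simp only [Set.mem_setOf_eq, Set.mem_empty_iff_false, iff_false]
      exact hPpos x
    rw [this, Set.ncard_empty]
  obtain ⟨gf, rf, hfe, hg0, hr0⟩ := hR1 p e a hp2
  set AQ : ℚ[X] := ∏ i, (X - C (a i : ℚ)) with hAQ
  have hAmap : AQ.map (algebraMap ℚ ℝ) = A := by
    rw [hAQ, hA, Polynomial.map_prod]
    simp
  set g : ℕ → ℚ[X] := fun m => X ^ e + ∑ j : Fin e, C ((gf j).eval (em p m)) * X ^ (j : ℕ) with hg
  set r : ℕ → ℚ[X] := fun m => ∑ j : Fin ((p - 1) * e), C ((rf j).eval (em p m)) * X ^ (j : ℕ)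
    with hr
  have hgs : ∀ m, (∑ j : Fin e, C ((gf j).eval (em p m)) * X ^ (j : ℕ) : ℚ[X]).degree < e :=
    fun m => degree_sum_fin_lt _
  have hrd : ∀ m, (r m).degree < ((p - 1) * e : ℕ) := fun m => degree_sum_fin_lt _
  have hgm : ∀ m, (g m).Monic := fun m => monic_X_pow_add (hgs m)
  have hgn : ∀ m, (g m).natDegree = e := by
    intro m
    simp only [hg]
    rw [natDegree_add_eq_left_of_degree_lt (by rw [degree_X_pow]; exact hgs m), natDegree_X_pow]
  by_contra hcon
  have hem0 : ∀ m, 0 < em p m := by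
    intro m
    simp only [em]
    positivity
  have hem1 : ∀ m, (p : ℚ) * em p m < 1 := by
    intro m
    simp only [em]
    rw [mul_one_div, div_lt_one (by positivity)]
    have : (0 : ℚ) ≤ m := Nat.cast_nonneg m
    linarith
  have key : ∀ m : ℕ, ∃ σ : ℝ, 1 < σ ∧ σ < 1 + 1 / ((m : ℝ) + 1) ∧ ∃ x : ℝ,
      (aeval x (g m) + σ) ^ p = aeval x (g m) ^ p + aeval x (r m) := by
    intro m
    by_contra hno
    push Not at hno
    apply hcon
    refine ⟨fun x => (a x.2 : ℚ) + (x.1 : ℕ) * em p m, g m, r m, 1, 1 + 1 / ((m : ℝ) + 1), ?_,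
      hgm m, hgn m, hrd m, ?_, one_pos, ?_, hno⟩
    · rintro ⟨j, i⟩ ⟨j', i'⟩ h
      simp only [ha] at h
      have hb : ∀ j : Fin p, (0 : ℚ) ≤ (j : ℕ) * em p m ∧ ((j : ℕ) : ℚ) * em p m < 1 := by
        intro j
        have h1 : ((j : ℕ) : ℚ) < p := by exact_mod_cast j.2
        exact ⟨mul_nonneg (Nat.cast_nonneg _) (hem0 m).le,
          lt_trans (mul_lt_mul_of_pos_right h1 (hem0 m)) (hem1 m)⟩
      obtain ⟨b1, b2⟩ := hb j
      obtain ⟨b3, b4⟩ := hb j'
      push_cast at h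
      have h1 : ((i : ℕ) : ℚ) < (i' : ℕ) + 1 := by linarith
      have h2 : ((i' : ℕ) : ℚ) < (i : ℕ) + 1 := by linarith
      have h1' : (i : ℕ) < (i' : ℕ) + 1 := by exact_mod_cast h1
      have h2' : (i' : ℕ) < (i : ℕ) + 1 := by exact_mod_cast h2
      have h3 : (i : ℕ) = (i' : ℕ) := by omega
      rw [h3] at h
      have h4 : ((j : ℕ) : ℚ) * em p m = ((j' : ℕ) : ℚ) * em p m := by linarith
      have h5 : ((j : ℕ) : ℚ) = ((j' : ℕ) : ℚ) := mul_right_cancel₀ (hem0 m).ne' h4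
      have h6 : (j : ℕ) = (j' : ℕ) := by exact_mod_cast h5
      exact Prod.ext (Fin.ext h6) (Fin.ext h3)
    · rw [Fintype.prod_prod_type]
      exact hfe (em p m)
    · have : (0 : ℝ) < 1 / ((m : ℝ) + 1) := by positivity
      linarith
  choose σ hσ1 hσ2 x hx using key
  have hσt : Tendsto σ atTop (𝓝 1) := by
    have h1 : Tendsto (fun m : ℕ => (1 : ℝ) + 1 / ((m : ℝ) + 1)) atTop (𝓝 (1 + 0)) :=
      tendsto_const_nhds.add tendsto_one_div_add_atTop_nhds_zero_nat
    rw [add_zero] at h1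
    exact tendsto_of_tendsto_of_tendsto_of_le_of_le tendsto_const_nhds h1
      (fun m => (hσ1 m).le) (fun m => (hσ2 m).le)
  set G : ℕ → ℝ[X] := fun m => (g m).map (algebraMap ℚ ℝ) with hG
  set R : ℕ → ℝ[X] := fun m => (r m).map (algebraMap ℚ ℝ) with hR
  have hGm : ∀ m, (G m).Monic := fun m => (hgm m).map _
  have hGn : ∀ m, (G m).natDegree = e := fun m => by
    simp only [hG]
    rw [(hgm m).natDegree_map, hgn]
  have hRd : ∀ m, (R m).degree < ((p - 1) * e : ℕ) := fun m =>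
    lt_of_le_of_lt degree_map_le (hrd m)
  have hGt : CT G A := by
    have e1 : G = fun m => X ^ e + ∑ j : Fin e,
        C ((((gf j).eval (em p m) : ℚ)) : ℝ) * X ^ (j : ℕ) := by
      funext m
      simp only [hG, hg, Polynomial.map_add, Polynomial.map_pow, Polynomial.map_X,
        Polynomial.map_sum, Polynomial.map_mul, Polynomial.map_C]
      rfl
    have e2 : A = X ^ e + ∑ j : Fin e, C (A.coeff j) * X ^ (j : ℕ) := by
      conv_lhs => rw [hAm.as_sum, hAn]
      rw [Finset.sum_range (fun i => C (A.coeff i) * X ^ i)]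
    rw [e1, e2]
    refine (CT.const _).add (CT.sum _ fun j _ => (CT.cc ?_).mul (CT.const _))
    have h1 := pol_tendsto p (gf j)
    have h3 : (((gf j).eval 0 : ℚ) : ℝ) = A.coeff j := by
      rw [hg0 j, ← hAmap, coeff_map]
      rfl
    rw [h3] at h1
    exact h1
  have hRt : CT R 0 := by
    have e1 : R = fun m => ∑ j : Fin ((p - 1) * e),
        C ((((rf j).eval (em p m) : ℚ)) : ℝ) * X ^ (j : ℕ) := by
      funext m
      simp only [hR, hr, Polynomial.map_pow, Polynomial.map_X,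
        Polynomial.map_sum, Polynomial.map_mul, Polynomial.map_C]
      rfl
    have e2 : (0 : ℝ[X]) = ∑ j : Fin ((p - 1) * e), C (0 : ℝ) * X ^ (j : ℕ) := by simp
    rw [e1, e2]
    refine CT.sum _ fun j _ => (CT.cc ?_).mul (CT.const _)
    have h2 := pol_tendsto p (rf j)
    rw [hr0 j] at h2
    simpa using h2
  set Q : ℕ → ℝ[X] := fun m => C (1 / (p : ℝ)) *
    (∑ j ∈ Finset.range p, (G m + C (σ m)) ^ j * (G m) ^ (p - 1 - j)) -
    C (1 / ((p : ℝ) * σ m)) * R m with hQdef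
  have hQmn : ∀ m, (Q m).Monic ∧ (Q m).natDegree = (p - 1) * e := fun m =>
    mon_aux p e hp1 (G m) (G m + C (σ m)) (R m) (hGm m) (hGn m)
      (hcadd (G m) (σ m) (hGm m) (hGn m)).1 (hcadd (G m) (σ m) (hGm m) (hGn m)).2 _ (hRd m)
  have hQt : CT Q P := by
    refine CT.sub ((CT.const _).mul (CT.sum _ fun j _ => ?_)) ((CT.cc ?_).mul hRt)
    · exact ((hGt.add (CT.cc hσt)).pow _).mul (hGt.pow _)
    · have h1 : Tendsto (fun m => 1 / ((p : ℝ) * σ m)) atTop (𝓝 (1 / ((p : ℝ) * 1))) :=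
        tendsto_const_nhds.div (tendsto_const_nhds.mul hσt) (by simpa using hp0)
      rw [mul_one] at h1
      exact h1
  have hev : ∀ᶠ m : ℕ in atTop, ∀ j ∈ Finset.range ((p - 1) * e + 1),
      |(Q m).coeff j - P.coeff j| < δ := by
    rw [Filter.eventually_all_finset]
    intro j _
    have := (Metric.tendsto_nhds.1 (hQt j)) δ hδ
    filter_upwards [this] with m hm
    rwa [Real.dist_eq] at hm
  obtain ⟨m, hm⟩ := hev.exists
  have h5 := hQ (Q m) (hQmn m).1 (by rw [(hQmn m).2, hPn]) (by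
    intro j
    by_cases hj : j ∈ Finset.range ((p - 1) * e + 1)
    · exact hm j hj
    · have hj' : (p - 1) * e < j := by
        rw [Finset.mem_range] at hj
        omega
      rw [coeff_eq_zero_of_natDegree_lt (by rw [(hQmn m).2]; exact hj'),
        coeff_eq_zero_of_natDegree_lt (by rw [hPn]; exact hj'), sub_self, abs_zero]
      exact hδ)
  rw [hPr] at h5
  have hfin : {y : ℝ | (Q m).eval y = 0}.Finite :=
    Polynomial.finite_setOfPred_isRoot (hQmn m).1.ne_zero
  rw [Set.ncard_eq_zero hfin] at h5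
  have hmem : x m ∈ {y : ℝ | (Q m).eval y = 0} := by
    simp only [Set.mem_setOf_eq]
    have e1 : aeval (x m) (g m) = (G m).eval (x m) := (eval_map_algebraMap (g m) (x m)).symm
    have e2 : aeval (x m) (r m) = (R m).eval (x m) := (eval_map_algebraMap (r m) (x m)).symm
    have h6 := hx m
    rw [e1, e2] at h6
    have h7 := geom_sum₂_mul ((G m).eval (x m) + σ m) ((G m).eval (x m)) p
    have hσ0 : σ m ≠ 0 := by
      have := hσ1 m
      positivity
    simp only [hQdef]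
    rw [eval_sub, eval_mul, eval_C, eval_finset_sum, eval_mul, eval_C]
    simp only [eval_mul, eval_pow, eval_add, eval_C]
    set SS := ∑ j ∈ Finset.range p, ((G m).eval (x m) + σ m) ^ j *
      (G m).eval (x m) ^ (p - 1 - j) with hSS
    have h8 : (R m).eval (x m) = SS * σ m := by
      have : SS * σ m = SS * ((G m).eval (x m) + σ m - (G m).eval (x m)) := by ring
      rw [this, h7]
      linarith
    rw [h8]
    field_simp
    ring
  rw [h5] at hmem
  exact hmem

end Pool.Agent.J4H21.TP
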