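import Pool.Agent.J4H20.TP.Stm

/-!
# Project TP of helper20: (INDP), independence modulo `p`-th powers, from a test prime (helper21, after J4H15/TR/Ind.lean)
-/

set_option autoImplicit false

namespace Pool.Agent.J4H21.TP

open Polynomial NumberField Pool.Agent.W289.CG Pool.Agent.J4H20.TP

/-- `a` is a `p`-th power -/
def IsPow (p : ℕ) {F : Type} [Field F] (a : F) : Prop := ∃ y : F, a = y ^ p

theorem IsPow.mul {p : ℕ} {F : Type} [Field F] {a b : F} (ha : IsPow p a) (hb : IsPow p b) :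
    IsPow p (a * b) := by
  obtain ⟨y, rfl⟩ := ha
  obtain ⟨z, rfl⟩ := hb
  exact ⟨y * z, by rw [mul_pow]⟩

theorem IsPow.pow {p : ℕ} {F : Type} [Field F] {a : F} (ha : IsPow p a) (n : ℕ) :
    IsPow p (a ^ n) := by
  obtain ⟨y, rfl⟩ := ha
  exact ⟨y ^ n, by rw [← pow_mul, ← pow_mul, mul_comm]⟩

/-- in a field, if `a * b` and `b ≠ 0` are `p`-th powers, so is `a` -/
theorem pow_of_mul {p : ℕ} {F : Type} [Field F] {a b : F} (hb0 : b ≠ 0) (hb : IsPow p b)
    (hab : IsPow p (a * b)) : IsPow p a := by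
  obtain ⟨y, hy⟩ := hab
  obtain ⟨z, hz⟩ := hb
  refine ⟨y / z, ?_⟩
  rw [div_pow, ← hy, ← hz, mul_div_assoc, div_self hb0, mul_one]

/-- a product of integral powers of quotients with a common denominator -/
theorem prod_div_zpow {K : Type} [Field K] {k : ℕ} (u : Fin k → K) (w : K) (hw : w ≠ 0)
    (e : Fin k → ℤ) :
    ∏ j, (u j / w) ^ e j = (∏ j, u j ^ e j) * w ^ (-∑ j, e j) := by
  have h1 : ∀ s : Finset (Fin k), ∏ j ∈ s, w ^ e j = w ^ (∑ j ∈ s, e j) := by
    intro s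
    classical
    induction s using Finset.induction_on with
    | empty => simp
    | insert a s ha ih =>
      rw [Finset.prod_insert ha, Finset.sum_insert ha, ih, zpow_add₀ hw]
  have h2 : ∏ j, (u j / w) ^ e j = (∏ j, u j ^ e j) / ∏ j, w ^ e j := by
    rw [← Finset.prod_div_distrib]
    exact Finset.prod_congr rfl fun j _ => div_zpow _ _ _
  rw [h2, h1, zpow_neg, div_eq_mul_inv]

theorem t_INDP : TaskRed → S_INDP := by
  intro hred p ee k D K _ _ θ c M q _ i x hT hemb hne e y hy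
  have hp0 : p ≠ 0 := D.hp.ne_zero
  have hodd : Odd p := D.hp.odd_of_ne_two (by have := D.hp2; omega)
  obtain ⟨φ, z, hφ, hz⟩ := hemb
  set E : Fin (k + 2) → ℤ :=
    Fin.snoc (α := fun _ => ℤ) (Fin.snoc (α := fun _ => ℤ) e 0) (-∑ j, e j) with hE
  have E1 : ∀ j : Fin k, E j.castSucc.castSucc = e j := by
    intro j
    simp [hE]
  have E2 : E (Fin.last k).castSucc = 0 := by
    simp [hE]
  have E3 : E (Fin.last (k + 1)) = -∑ j, e j := by
    simp [hE]
  have hw : θ - (D.a (Fin.last (k + 1)) : K) ≠ 0 := hne _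
  have hprod : ∏ j : Fin (k + 2), (θ - (D.a j : K)) ^ E j =
      ∏ j : Fin k, ((θ - (D.a j.castSucc.castSucc : K)) /
        (θ - (D.a (Fin.last (k + 1)) : K))) ^ e j := by
    rw [prod_div_zpow _ _ hw, Fin.prod_univ_castSucc, Fin.prod_univ_castSucc, E2, E3]
    simp only [E1, zpow_zero, mul_one]
  have hxne : ∀ j, ((x : ℤ) : ZMod q) ≠ (D.a j : ZMod q) := by
    intro j h
    apply hT.ne j
    push_cast
    rw [h, sub_self]
  set F : Fin (k + 2) → ℕ := fun j => (E j % (p : ℤ)).toNat with hF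
  have hFE : ∀ j, ((F j : ℕ) : ℤ) = E j % (p : ℤ) := fun j =>
    Int.toNat_of_nonneg (Int.emod_nonneg _ (by exact_mod_cast hp0))
  have hpar : ∀ j, ((p : ℕ) : ℤ) ∣ E j - ((F j : ℕ) : ℤ) := by
    intro j
    rw [hFE]
    exact Int.dvd_self_sub_emod
  obtain ⟨y', hy'⟩ := hred K q p (k + 2) θ D.a φ z (x : ZMod q) D.hp hφ hz hxne E
    F y hpar (by rw [hprod]; exact hy)
  have hsq : IsPow p (∏ j, ((x : ZMod q) - (D.a j : ZMod q)) ^ F j) := by
    rcases hy' with h | h
    · rw [h]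
      exact ⟨y', rfl⟩
    · rw [h]
      exact ⟨-y', by rw [hodd.neg_pow]⟩
  set i' : Fin (k + 2) := i.castSucc.castSucc with hi'
  have hcast : ∀ j, ((x - D.a j : ℤ) : ZMod q) = (x : ZMod q) - (D.a j : ZMod q) := by
    intro j
    push_cast
    ring
  have hfac : ∀ j, j ≠ i' → IsPow p (((x : ZMod q) - (D.a j : ZMod q)) ^ F j) := by
    intro j hj
    by_cases hjk : j = (Fin.last k).castSucc
    · rw [hjk]
      have : F (Fin.last k).castSucc = 0 := by
        simp only [hF]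
        rw [E2]
        simp
      rw [this, pow_zero]
      exact ⟨1, by simp⟩
    · apply IsPow.pow
      rw [← hcast]
      exact hT.pw j hj hjk
  have hrest : IsPow p (∏ j ∈ Finset.univ.erase i',
      ((x : ZMod q) - (D.a j : ZMod q)) ^ F j) := by
    apply Finset.prod_induction _ (IsPow p) (fun a b ha hb => ha.mul hb) ⟨1, by simp⟩
    intro j hj
    exact hfac j (Finset.ne_of_mem_erase hj)
  have hrest0 : ∏ j ∈ Finset.univ.erase i',
      ((x : ZMod q) - (D.a j : ZMod q)) ^ F j ≠ 0 := by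
    rw [Finset.prod_ne_zero_iff]
    intro j _
    apply pow_ne_zero
    rw [← hcast]
    exact hT.ne j
  have hone : IsPow p (((x : ZMod q) - (D.a i' : ZMod q)) ^ F i') := by
    apply pow_of_mul hrest0 hrest
    rw [Finset.mul_prod_erase Finset.univ
      (fun j => ((x : ZMod q) - (D.a j : ZMod q)) ^ F j) (Finset.mem_univ i')]
    exact hsq
  have hnsq : ¬ IsPow p ((x : ZMod q) - (D.a i' : ZMod q)) := by
    rw [← hcast]
    exact hT.np
  have hx0 : (x : ZMod q) - (D.a i' : ZMod q) ≠ 0 := by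
    rw [← hcast]
    exact hT.ne i'
  rw [← E1 i]
  by_contra hnd
  have hndF : ¬ p ∣ F i' := by
    intro h
    apply hnd
    have h2 : (p : ℤ) ∣ ((F i' : ℕ) : ℤ) := Int.natCast_dvd_natCast.mpr h
    have h3 := dvd_add (hpar i') h2
    simpa using h3
  have hcop : IsCoprime ((F i' : ℕ) : ℤ) (p : ℤ) :=
    Nat.isCoprime_iff_coprime.mpr ((Nat.Prime.coprime_iff_not_dvd D.hp).mpr hndF).symm
  obtain ⟨s, t, hst⟩ := hcop
  obtain ⟨Y, hY⟩ := hone
  apply hnsq
  set X0 : ZMod q := (x : ZMod q) - (D.a i' : ZMod q) with hX0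
  refine ⟨Y ^ s * X0 ^ t, ?_⟩
  calc X0 = X0 ^ (1 : ℤ) := (zpow_one _).symm
    _ = X0 ^ (s * (F i' : ℤ) + t * (p : ℤ)) := by rw [hst]
    _ = (X0 ^ (F i' : ℤ)) ^ s * (X0 ^ t) ^ (p : ℤ) := by
        rw [zpow_add₀ hx0, mul_comm s, zpow_mul, zpow_mul]
    _ = (Y ^ p) ^ s * (X0 ^ t) ^ p := by
        rw [zpow_natCast, hY, zpow_natCast]
    _ = (Y ^ s * X0 ^ t) ^ p := by
        rw [mul_pow, ← zpow_natCast (Y ^ s) p, ← zpow_mul, mul_comm s, zpow_mul, zpow_natCast]

end Pool.Agent.J4H21.TP
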